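import Pool.Agent.Q165.GL.Fin
import Pool.Agent.Q224.GL.GEO
import Pool.Agent.Q150.GL.EDGE
import Pool.Agent.Q150.GL.LOW
import Pool.Agent.Q154.GL.FAR
import Pool.Agent.Q237.GL.Cut
import Pool.Agent.Q153.GL.BLOCK
import Pool.Agent.Q153.GL.NEAR

/-!
# Edges of geometric graphs forced to meet one line: `f(n, k)` for every `k`

`Pool.Agent.Q165.GL.f n k` is the least `e` such that every geometric graph on `n` points with at
least `e` edges has a line meeting the relative interiors of at least `k` edges.

Idea of the proof of the upper bounds.  Let every line meet at most `c` edges.  Take the lines through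
two of the points, `y` and `x`, moved a little: they meet the edges separated by the line and half of
the edges at `y` and `x`.  On the other hand the lines through `y` separate the ends of an edge at
least as often as there are points between them in the angular order at `y`; a packing argument gives
a lower bound for the number of these incidences; it is applied twice, for the edges which have an
end adjacent to `y` (after exchanging the roles of `y` and `x`) and for the other ones.  If `c` is odd
a second argument (blocks of consecutive points in the angular order at `y`, which are removed, and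
induction on `n`) improves the bound.
-/

set_option autoImplicit false

namespace Pool.Agent.Results.MP_b5bf4a_co.AsymptoticsForEveryK

open Pool.Agent.Q165.GL (f)

theorem result :
    (∀ k : ℕ, 1 ≤ k → ∃ j t : ℕ, t ≤ j ∧
      (k = j * (j + 1) + 2 * t + 1 ∨ k = j * (j + 1) + 2 * t + 2)) ∧
    (∀ j t k n : ℕ, t ≤ j → k = j * (j + 1) + 2 * t + 1 → 4 * k ≤ n →
      ((j : ℝ) + t / (j + 1)) * n - k ≤ f n k ∧
      (f n k : ℝ) ≤ ((j : ℝ) + t / (j + 1)) * (n + 8 * k) + 1) ∧
    (∀ j t k n : ℕ, t ≤ j → k = j * (j + 1) + 2 * t + 2 → 1 ≤ n →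
      ((j : ℝ) + t / (j + 1)) * n - k ≤ f n k ∧
      (f n k : ℝ) ≤ ((j : ℝ) + t / (j + 1)) * n + 16 * k ^ 3 * √n) ∧
    (∀ k n : ℕ, 1 ≤ k → 4 * (k + 1) ≤ n →
      |(f n k : ℝ) - (√k - 1 / 2) * n| ≤ 2 * n / √k + 32 * (k * √k)) := by
  have hlow : ∀ j t k n : ℕ, t ≤ j → j * (j + 1) + 2 * t + 1 ≤ k →
      ((j : ℝ) + t / (j + 1)) * n - k ≤ f n k := by
    intro j t k n ht hk
    have h1 := Q165.GL.lower Q150.GL.low n j t k ht hk
    have h2 : ((j : ℝ) * (j + 1) + 2 * t) ≤ k := by
      have : j * (j + 1) + 2 * t ≤ k := by omega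
      exact_mod_cast this
    linarith
  refine ⟨Q165.GL.exists_jt, ?_, ?_, ?_⟩
  · intro j t k n ht hk hn
    exact ⟨hlow j t k n ht hk.ge,
      Q165.GL.upper_odd Q224.GL.geo Q237.GL.pair Q154.GL.far Q153.GL.near n j t k hk hn⟩
  · intro j t k n ht hk hn
    exact ⟨hlow j t k n ht (by omega),
      Q165.GL.upper_even Q224.GL.geo Q237.GL.pair Q153.GL.near Q237.GL.cut Q153.GL.block
        Q150.GL.edge n j t k ht hk hn⟩
  · intro k n hk hn
    exact Q165.GL.asym Q224.GL.geo Q237.GL.pair Q154.GL.far Q153.GL.near Q150.GL.low n k hk hn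

end Pool.Agent.Results.MP_b5bf4a_co.AsymptoticsForEveryK
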